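import Pool.Agent.PW.StmtsA

/-! Squad PW, row FGS: `FG c G` is a linear subspace. -/

set_option autoImplicit false

namespace Pool.Agent.PW.H27

open MvPolynomial
open Pool.Agent.RS (FF io)

theorem fgs : FgsStmt := by
  intro E _ c
  induction c with
  | zero =>
    intro G
    refine ⟨{ carrier := {f | ∀ i ∉ G, dd i f = 0}, add_mem' := ?_, zero_mem' := ?_,
              smul_mem' := ?_ }, fun f => Iff.rfl⟩
    · intro a b ha hb i hi
      rw [map_add, ha i hi, hb i hi, add_zero]
    · intro i hi
      exact map_zero _
    · intro r a ha i hi
      have h := ha i hi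
      rw [Derivation.map_smul, h, smul_zero]
  | succ c ih =>
    intro G
    choose S hS using ih
    refine ⟨{ carrier := {f | ∀ i ∉ G, dd i f ∈ S (insert i G)}, add_mem' := ?_, zero_mem' := ?_,
              smul_mem' := ?_ }, fun f => ?_⟩
    · intro a b ha hb i hi
      rw [map_add]
      exact (S (insert i G)).add_mem (ha i hi) (hb i hi)
    · intro i hi
      rw [map_zero]
      exact (S (insert i G)).zero_mem
    · intro r a ha i hi
      rw [Derivation.map_smul]
      exact (S (insert i G)).smul_mem r (ha i hi)
    · constructor
      · intro h i hi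
        exact (hS (insert i G) (dd i f)).mp (h i hi)
      · intro h i hi
        exact (hS (insert i G) (dd i f)).mpr (h i hi)

end Pool.Agent.PW.H27
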